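import Mathlib

set_option autoImplicit false
open MeasureTheory Filter Set

namespace Pool.Agent.W743.NR

universe u

/-- powers of an invertible measure preserving transformation -/
theorem zpow_mp {X : Type u} [MeasurableSpace X] {μ : Measure X} {T : Equiv.Perm X}
    (h1 : Measurable T) (h2 : Measurable T.symm) (h3 : MeasurePreserving T μ μ) (n : ℤ) :
    MeasurePreserving (⇑(T ^ n)) μ μ := by
  have hnat : ∀ k : ℕ, MeasurePreserving (⇑(T ^ k)) μ μ := by
    intro k
    rw [← Equiv.Perm.iterate_eq_pow]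
    exact h3.iterate k
  let e : X ≃ᵐ X := ⟨T, h1, h2⟩
  have hsymm : MeasurePreserving (⇑T.symm) μ μ := MeasurePreserving.symm e h3
  have hnat' : ∀ k : ℕ, MeasurePreserving (⇑(T⁻¹ ^ k)) μ μ := by
    intro k
    rw [← Equiv.Perm.iterate_eq_pow]
    exact hsymm.iterate k
  obtain ⟨k, rfl | rfl⟩ := n.eq_nat_or_neg
  · simpa using hnat k
  · have : (T ^ (-(k : ℤ))) = T⁻¹ ^ k := by rw [zpow_neg, zpow_natCast, inv_pow]
    rw [this]
    exact hnat' k

/-- `r` is the correlation sequence of a bounded measurable function on an invertible measure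
preserving system. -/
def Corr (r : ℤ → ℝ) : Prop :=
  ∃ (X : Type u) (_ : MeasurableSpace X) (μ : Measure X) (_ : IsProbabilityMeasure μ)
    (T : Equiv.Perm X) (F : X → ℝ) (M : ℝ), Measurable T ∧ Measurable T.symm ∧
    MeasurePreserving T μ μ ∧ Measurable F ∧ (∀ x, |F x| ≤ M) ∧
    ∀ n : ℤ, r n = ∫ x, F x * F ((T ^ n) x) ∂μ

theorem Corr.const {c : ℝ} (hc : 0 ≤ c) : Corr.{u} (fun _ => c) := by
  refine ⟨PUnit, inferInstance, Measure.dirac PUnit.unit, inferInstance, 1, fun _ => √c, √c,
    measurable_id, measurable_id, MeasurePreserving.id _, measurable_const, ?_, ?_⟩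
  · intro x
    rw [abs_of_nonneg (Real.sqrt_nonneg _)]
  · intro n
    simp [Real.mul_self_sqrt hc]

/-- product of permutations as a homomorphism -/
def prodHom (X : Type*) (Y : Type*) : Equiv.Perm X × Equiv.Perm Y →* Equiv.Perm (X × Y) where
  toFun p := Equiv.prodCongr p.1 p.2
  map_one' := by ext <;> simp
  map_mul' p q := by ext <;> simp

theorem Corr.mul {r s : ℤ → ℝ} (hr : Corr.{u} r) (hs : Corr.{u} s) :
    Corr.{u} (fun n => r n * s n) := by
  obtain ⟨X, _, μ, _, T, F, M, hT1, hT2, hT3, hF, hFM, hr⟩ := hr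
  obtain ⟨Y, _, ν, _, S, G, N, hS1, hS2, hS3, hG, hGN, hs⟩ := hs
  have hpow : ∀ n : ℤ, (Equiv.prodCongr T S) ^ n = Equiv.prodCongr (T ^ n) (S ^ n) := by
    intro n
    have := map_zpow (prodHom X Y) (T, S) n
    exact this.symm
  refine ⟨X × Y, inferInstance, μ.prod ν, inferInstance, Equiv.prodCongr T S,
    fun z => F z.1 * G z.2, M * N, ?_, ?_, ?_, ?_, ?_, ?_⟩
  · exact (hT1.comp measurable_fst).prodMk (hS1.comp measurable_snd)
  · exact (hT2.comp measurable_fst).prodMk (hS2.comp measurable_snd)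
  · exact hT3.prod hS3
  · exact (hF.comp measurable_fst).mul (hG.comp measurable_snd)
  · intro z
    rw [abs_mul]
    exact mul_le_mul (hFM _) (hGN _) (abs_nonneg _) ((abs_nonneg _).trans (hFM z.1))
  · intro n
    beta_reduce
    rw [hr, hs, ← integral_prod_mul (fun x => F x * F ((T ^ n) x)) (fun y => G y * G ((S ^ n) y)),
      hpow]
    refine integral_congr_ae (Eventually.of_forall fun z => ?_)
    simp only [Equiv.prodCongr_apply, Prod.map_fst, Prod.map_snd]
    ring

theorem Corr.add {r s : ℤ → ℝ} (hr : Corr.{u} r) (hs : Corr.{u} s) :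
    Corr.{u} (fun n => r n + s n) := by
  obtain ⟨X, _, μ, _, T, F, M, hT1, hT2, hT3, hF, hFM, hr⟩ := hr
  obtain ⟨Y, _, ν, _, S, G, N, hS1, hS2, hS3, hG, hGN, hs⟩ := hs
  have hpow : ∀ n : ℤ, (Equiv.Perm.sumCongr T S) ^ n = Equiv.Perm.sumCongr (T ^ n) (S ^ n) := by
    intro n
    have := map_zpow (Equiv.Perm.sumCongrHom X Y) (T, S) n
    exact this.symm
  let ρ : Measure (X ⊕ Y) := (2⁻¹ : ENNReal) • μ.map Sum.inl + (2⁻¹ : ENNReal) • ν.map Sum.inr
  have hρ : IsProbabilityMeasure ρ := by
    constructor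
    simp only [ρ, Measure.add_apply, Measure.smul_apply, smul_eq_mul]
    rw [Measure.map_apply measurable_inl MeasurableSet.univ,
      Measure.map_apply measurable_inr MeasurableSet.univ]
    simp [ENNReal.inv_two_add_inv_two]
  have hint : ∀ f : X ⊕ Y → ℝ, Measurable f → (∃ C, ∀ z, |f z| ≤ C) →
      ∫ z, f z ∂ρ = 2⁻¹ * ∫ x, f (Sum.inl x) ∂μ + 2⁻¹ * ∫ y, f (Sum.inr y) ∂ν := by
    rintro f hf ⟨C, hC⟩
    have b1 : Integrable f (μ.map Sum.inl) := by
      have : IsProbabilityMeasure (μ.map (Sum.inl : X → X ⊕ Y)) :=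
        Measure.isProbabilityMeasure_map measurable_inl.aemeasurable
      exact Integrable.of_bound hf.aestronglyMeasurable C (Eventually.of_forall hC)
    have b2 : Integrable f (ν.map Sum.inr) := by
      have : IsProbabilityMeasure (ν.map (Sum.inr : Y → X ⊕ Y)) :=
        Measure.isProbabilityMeasure_map measurable_inr.aemeasurable
      exact Integrable.of_bound hf.aestronglyMeasurable C (Eventually.of_forall hC)
    have h2 : (2⁻¹ : ENNReal) ≠ ⊤ := by simp
    rw [integral_add_measure (b1.smul_measure h2) (b2.smul_measure h2),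
      integral_smul_measure, integral_smul_measure,
      integral_map measurable_inl.aemeasurable hf.aestronglyMeasurable,
      integral_map measurable_inr.aemeasurable hf.aestronglyMeasurable]
    simp
  have hFF : Measurable (Sum.elim (fun x => √2 * F x) (fun y => √2 * G y)) :=
    Measurable.sumElim (hF.const_mul _) (hG.const_mul _)
  have hT1' : Measurable (Equiv.Perm.sumCongr T S) :=
    Measurable.sumMap hT1 hS1
  have hT2' : Measurable (Equiv.Perm.sumCongr T S).symm :=
    Measurable.sumMap hT2 hS2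
  have hmp : MeasurePreserving (Equiv.Perm.sumCongr T S) ρ ρ := by
    refine ⟨hT1', ?_⟩
    simp only [ρ]
    rw [Measure.map_add _ _ hT1', Measure.map_smul, Measure.map_smul,
      Measure.map_map hT1' measurable_inl, Measure.map_map hT1' measurable_inr]
    have e1 : (⇑(Equiv.Perm.sumCongr T S) ∘ (Sum.inl : X → X ⊕ Y)) = Sum.inl ∘ T := by
      ext x; simp
    have e2 : (⇑(Equiv.Perm.sumCongr T S) ∘ (Sum.inr : Y → X ⊕ Y)) = Sum.inr ∘ S := by
      ext x; simp
    rw [e1, e2, ← Measure.map_map measurable_inl hT1, ← Measure.map_map measurable_inr hS1,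
      hT3.map_eq, hS3.map_eq]
  refine ⟨X ⊕ Y, inferInstance, ρ, hρ, Equiv.Perm.sumCongr T S,
    Sum.elim (fun x => √2 * F x) (fun y => √2 * G y), √2 * M + √2 * N, hT1', hT2', hmp, hFF, ?_, ?_⟩
  · have hM : ∀ x, 0 ≤ M := fun x => (abs_nonneg _).trans (hFM x)
    have hX : Nonempty X := nonempty_of_isProbabilityMeasure μ
    have hY : Nonempty Y := nonempty_of_isProbabilityMeasure ν
    have hM0 : 0 ≤ M := hM hX.some
    have hN0 : 0 ≤ N := (abs_nonneg _).trans (hGN hY.some)
    have h2 : 0 ≤ √2 := Real.sqrt_nonneg _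
    rintro (x | y)
    · simp only [Sum.elim_inl, abs_mul, abs_of_nonneg h2]
      nlinarith [mul_le_mul_of_nonneg_left (hFM x) h2, mul_nonneg h2 hN0]
    · simp only [Sum.elim_inr, abs_mul, abs_of_nonneg h2]
      nlinarith [mul_le_mul_of_nonneg_left (hGN y) h2, mul_nonneg h2 hM0]
  · intro n
    rw [hint]
    · beta_reduce
      rw [hr, hs, hpow]
      simp only [Sum.elim_inl, Sum.elim_inr, Equiv.Perm.sumCongr_apply, Sum.map_inl, Sum.map_inr]
      have h22 : √2 * √2 = (2 : ℝ) := Real.mul_self_sqrt (by norm_num)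
      have e1 : ∀ x, √2 * F x * (√2 * F ((T ^ n) x)) = 2 * (F x * F ((T ^ n) x)) := by
        intro x
        linear_combination (F x * F ((T ^ n) x)) * h22
      have e2 : ∀ x, √2 * G x * (√2 * G ((S ^ n) x)) = 2 * (G x * G ((S ^ n) x)) := by
        intro x
        linear_combination (G x * G ((S ^ n) x)) * h22
      simp only [e1, e2, integral_const_mul]
      ring
    · exact hFF.mul (hFF.comp (zpow_mp hT1' hT2' hmp n).measurable)
    · have hX : Nonempty X := nonempty_of_isProbabilityMeasure μ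
      have hY : Nonempty Y := nonempty_of_isProbabilityMeasure ν
      have hM0 : 0 ≤ M := (abs_nonneg _).trans (hFM hX.some)
      have hN0 : 0 ≤ N := (abs_nonneg _).trans (hGN hY.some)
      have h2 : 0 ≤ √2 := Real.sqrt_nonneg _
      have hb : ∀ z : X ⊕ Y, |Sum.elim (fun x => √2 * F x) (fun y => √2 * G y) z| ≤
          √2 * M + √2 * N := by
        rintro (x | y)
        · simp only [Sum.elim_inl, abs_mul, abs_of_nonneg h2]
          nlinarith [mul_le_mul_of_nonneg_left (hFM x) h2, mul_nonneg h2 hN0]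
        · simp only [Sum.elim_inr, abs_mul, abs_of_nonneg h2]
          nlinarith [mul_le_mul_of_nonneg_left (hGN y) h2, mul_nonneg h2 hM0]
      refine ⟨(√2 * M + √2 * N) * (√2 * M + √2 * N), fun z => ?_⟩
      rw [abs_mul]
      exact mul_le_mul (hb _) (hb _) (abs_nonneg _) ((abs_nonneg _).trans (hb z))

theorem Corr.pow {r : ℤ → ℝ} (hr : Corr.{u} r) (k : ℕ) : Corr.{u} (fun n => r n ^ k) := by
  induction k with
  | zero => simpa using Corr.const (c := 1) zero_le_one
  | succ k ih =>
    have := ih.mul hr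
    simpa [pow_succ] using this

theorem Corr.sum {ι : Type} (s : Finset ι) (r : ι → ℤ → ℝ) (h : ∀ i ∈ s, Corr.{u} (r i)) :
    Corr.{u} (fun n => ∑ i ∈ s, r i n) := by
  classical
  induction s using Finset.induction_on with
  | empty => simpa using Corr.const (c := 0) le_rfl
  | insert a s ha ih =>
    have h1 := (h a (Finset.mem_insert_self _ _)).add (ih fun i hi => h i (Finset.mem_insert_of_mem hi))
    simpa [Finset.sum_insert ha] using h1

end Pool.Agent.W743.NR
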