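import Pool.Agent.W743.NR.Noise

set_option autoImplicit false
open MeasureTheory Filter Set

namespace Pool.Agent.W743.NR

universe u

/-- `R` is a set of nice recurrence, the elements of `R` tending to infinity along `l`. -/
def Nice (l : Filter ℤ) (R : Set ℤ) : Prop :=
  ∀ (X : Type u) [MeasurableSpace X] (μ : Measure X) [IsProbabilityMeasure μ] (T : Equiv.Perm X),
    Measurable T → Measurable T.symm → MeasurePreserving T μ μ →
    ∀ A : Set X, MeasurableSet A → ∀ ε : ℝ, 0 < ε →
      ∃ᶠ n in l, n ∈ R ∧ (μ A).toReal ^ 2 - ε ≤ (μ (A ∩ ⇑(T ^ n) '' A)).toReal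

theorem inter_image {X : Type u} [MeasurableSpace X] {μ : Measure X} {T : Equiv.Perm X}
    (h1 : Measurable T) (h2 : Measurable T.symm) (h3 : MeasurePreserving T μ μ) {A : Set X}
    (hA : MeasurableSet A) (n : ℤ) :
    μ (A ∩ ⇑(T ^ n) '' A) = μ (A ∩ ⇑(T ^ n) ⁻¹' A) := by
  have hn := zpow_mp h1 h2 h3 n
  have hn' := zpow_mp h1 h2 h3 (-n)
  have himg : ⇑(T ^ n) '' A = ⇑(T ^ (-n)) ⁻¹' A := by
    rw [zpow_neg, Equiv.Perm.inv_def, Equiv.image_eq_preimage_symm]
  have hm : MeasurableSet (A ∩ ⇑(T ^ n) '' A) := by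
    rw [himg]
    exact hA.inter (hn'.measurable hA)
  rw [← hn.measure_preimage hm.nullMeasurableSet, preimage_inter,
    preimage_image_eq _ (T ^ n).injective, inter_comm]

theorem corr_of_set {X : Type u} [MeasurableSpace X] {μ : Measure X} [IsProbabilityMeasure μ]
    {T : Equiv.Perm X} (h1 : Measurable T) (h2 : Measurable T.symm)
    (h3 : MeasurePreserving T μ μ) {A : Set X} (hA : MeasurableSet A) :
    Corr.{u} (fun n => (μ (A ∩ ⇑(T ^ n) '' A)).toReal - (μ A).toReal ^ 2) := by
  set a : ℝ := (μ A).toReal with ha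
  have hm : Measurable (fun x => A.indicator (fun _ => (1 : ℝ)) x - a) :=
    (measurable_const.indicator hA).sub_const a
  refine ⟨X, inferInstance, μ, inferInstance, T, fun x => A.indicator (fun _ => (1 : ℝ)) x - a,
    1 + |a|, h1, h2, h3, hm, ?_, ?_⟩
  · intro x
    refine (abs_sub _ _).trans ?_
    gcongr
    by_cases hx : x ∈ A <;> simp [hx]
  · intro n
    have hn := zpow_mp h1 h2 h3 n
    beta_reduce
    rw [inter_image h1 h2 h3 hA n]
    have hi1 : Integrable (A.indicator (fun _ => (1 : ℝ))) μ :=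
      (integrable_const (1 : ℝ)).indicator hA
    have hi2 : Integrable (fun x => A.indicator (fun _ => (1 : ℝ)) ((T ^ n) x)) μ :=
      hn.integrable_comp_of_integrable hi1
    have hi3 : Integrable ((A ∩ ⇑(T ^ n) ⁻¹' A).indicator (fun _ => (1 : ℝ))) μ :=
      (integrable_const (1 : ℝ)).indicator (hA.inter (hn.measurable hA))
    have e1 : ∫ x, A.indicator (fun _ => (1 : ℝ)) x ∂μ = a := by
      rw [integral_indicator_const _ hA]
      simp [ha, Measure.real]
    have e2 : ∫ x, A.indicator (fun _ => (1 : ℝ)) ((T ^ n) x) ∂μ = a := by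
      rw [← e1]
      have e : MeasurableEmbedding (⇑(T ^ n)) := by
        have hn' := zpow_mp h1 h2 h3 (-n)
        let e : X ≃ᵐ X := ⟨T ^ n, hn.measurable, by
          have : (Equiv.symm (T ^ n)) = T ^ (-n) := by rw [zpow_neg]; rfl
          rw [this]; exact hn'.measurable⟩
        exact e.measurableEmbedding
      exact hn.integral_comp e _
    have e3 : ∫ x, (A ∩ ⇑(T ^ n) ⁻¹' A).indicator (fun _ => (1 : ℝ)) x ∂μ =
        (μ (A ∩ ⇑(T ^ n) ⁻¹' A)).toReal := by
      rw [integral_indicator_const _ (hA.inter (hn.measurable hA))]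
      simp [Measure.real]
    have e4 : ∀ x, (A.indicator (fun _ => (1 : ℝ)) x - a) *
        (A.indicator (fun _ => (1 : ℝ)) ((T ^ n) x) - a) =
        (A ∩ ⇑(T ^ n) ⁻¹' A).indicator (fun _ => (1 : ℝ)) x
        - a * A.indicator (fun _ => (1 : ℝ)) x - a * A.indicator (fun _ => (1 : ℝ)) ((T ^ n) x)
        + a ^ 2 := by
      intro x
      by_cases hx : x ∈ A <;> by_cases hy : (T ^ n) x ∈ A <;> simp [hx, hy] <;> ring
    simp only [e4]
    have j1 : Integrable (fun x => (A ∩ ⇑(T ^ n) ⁻¹' A).indicator (fun _ => (1 : ℝ)) x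
        - a * A.indicator (fun _ => (1 : ℝ)) x) μ := hi3.sub (hi1.const_mul a)
    have j2 : Integrable (fun x => (A ∩ ⇑(T ^ n) ⁻¹' A).indicator (fun _ => (1 : ℝ)) x
        - a * A.indicator (fun _ => (1 : ℝ)) x - a * A.indicator (fun _ => (1 : ℝ)) ((T ^ n) x)) μ :=
      j1.sub (hi2.const_mul a)
    rw [integral_add j2 (integrable_const _), integral_sub j1 (hi2.const_mul a),
      integral_sub hi3 (hi1.const_mul a), integral_const_mul, integral_const_mul, e1, e2, e3]
    simp
    ring

theorem nice_corr {l : Filter ℤ} (hl : ∀ᶠ n in l, n ≠ 0) {R : Set ℤ} (hR : Nice.{u} l R)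
    {r : ℤ → ℝ} (hr : Corr.{u} r) {ε : ℝ} (hε : 0 < ε) : ∃ᶠ n in l, n ∈ R ∧ -ε ≤ r n := by
  obtain ⟨X, _, μ, _, T, F, M, h1, h2, h3, hF, hFM, hr⟩ := hr
  have hX : Nonempty X := nonempty_of_isProbabilityMeasure μ
  have hM0 : 0 ≤ M := (abs_nonneg _).trans (hFM hX.some)
  set K : ℝ := M + 1 with hK
  have hK0 : 0 < K := by linarith
  set c : X → ℝ := fun x => (1 + F x / K) / 2 with hc
  have hcm : Measurable c := by fun_prop
  have hFK : ∀ x, |F x / K| ≤ 1 := by
    intro x
    rw [abs_div, abs_of_pos hK0, div_le_one hK0]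
    linarith [hFM x]
  have hc0 : ∀ x, 0 ≤ c x := by
    intro x
    have := neg_le_of_abs_le (hFK x)
    simp only [hc]; linarith
  have hc1 : ∀ x, c x ≤ 1 := by
    intro x
    have := le_of_abs_le (hFK x)
    simp only [hc]; linarith
  set U : Equiv.Perm (X × (ℤ → ℝ)) := Equiv.prodCongr T sh with hU
  have hpow : ∀ n : ℤ, U ^ n = Equiv.prodCongr (T ^ n) (sh ^ n) := by
    intro n
    have := map_zpow (prodHom X (ℤ → ℝ)) (T, sh) n
    exact this.symm
  have hU1 : Measurable U := (h1.comp measurable_fst).prodMk (sh_measurable.comp measurable_snd)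
  have hU2 : Measurable U.symm :=
    (h2.comp measurable_fst).prodMk (sh_symm_measurable.comp measurable_snd)
  have hU3 : MeasurePreserving U (μ.prod noise) (μ.prod noise) := h3.prod sh_mp
  set A : Set (X × (ℤ → ℝ)) := {z | z.2 0 < c z.1} with hAdef
  have hA : MeasurableSet A :=
    measurableSet_lt ((measurable_pi_apply 0).comp measurable_snd) (hcm.comp measurable_fst)
  have hFi : Integrable F μ := Integrable.of_bound hF.aestronglyMeasurable M (Eventually.of_forall hFM)
  have hci : Integrable c μ := by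
    refine Integrable.of_bound hcm.aestronglyMeasurable 1 (Eventually.of_forall fun x => ?_)
    rw [Real.norm_eq_abs, abs_of_nonneg (hc0 x)]
    exact hc1 x
  have mA : ((μ.prod noise) A).toReal = ∫ x, c x ∂μ := by
    rw [Measure.prod_apply hA]
    have : ∀ x, noise (Prod.mk x ⁻¹' A) = ENNReal.ofReal (c x) := by
      intro x
      exact noise_one (hc0 x) (hc1 x)
    simp only [this]
    rw [← ofReal_integral_eq_lintegral_ofReal hci (Eventually.of_forall hc0),
      ENNReal.toReal_ofReal (integral_nonneg hc0)]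
  have hmain : ∀ n : ℤ, n ≠ 0 → ((μ.prod noise) (A ∩ ⇑(U ^ n) '' A)).toReal =
      ∫ x, c x * c ((T ^ n) x) ∂μ := by
    intro n hn
    have hTn := zpow_mp h1 h2 h3 n
    rw [inter_image hU1 hU2 hU3 hA n, Measure.prod_apply
      (hA.inter ((zpow_mp hU1 hU2 hU3 n).measurable hA))]
    have : ∀ x, noise (Prod.mk x ⁻¹' (A ∩ ⇑(U ^ n) ⁻¹' A)) =
        ENNReal.ofReal (c x * c ((T ^ n) x)) := by
      intro x
      rw [← noise_two hn (hc0 x) (hc1 x) (hc0 _) (hc1 ((T ^ n) x))]
      congr 1
      ext w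
      simp only [mem_preimage, mem_inter_iff, hpow, hAdef]
      change (w 0 < c x ∧ (sh ^ n) w 0 < c ((T ^ n) x)) ↔ _
      rw [sh_zpow, zero_add]
      rfl
    simp only [this]
    have hcc : Measurable (fun x => c x * c ((T ^ n) x)) := hcm.mul (hcm.comp hTn.measurable)
    have hcci : Integrable (fun x => c x * c ((T ^ n) x)) μ := by
      refine Integrable.of_bound hcc.aestronglyMeasurable 1 (Eventually.of_forall fun x => ?_)
      rw [Real.norm_eq_abs, abs_of_nonneg (mul_nonneg (hc0 x) (hc0 _))]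
      exact mul_le_one₀ (hc1 x) (hc0 _) (hc1 _)
    have h0 : ∀ x, 0 ≤ c x * c ((T ^ n) x) := fun x => mul_nonneg (hc0 x) (hc0 _)
    rw [← ofReal_integral_eq_lintegral_ofReal hcci (Eventually.of_forall h0),
      ENNReal.toReal_ofReal (integral_nonneg h0)]
  have key := hR (X × (ℤ → ℝ)) (μ.prod noise) U hU1 hU2 hU3 A hA (ε / (4 * K ^ 2)) (by positivity)
  refine (key.and_eventually hl).mono ?_
  rintro n ⟨⟨hnR, hn⟩, hn0⟩
  refine ⟨hnR, ?_⟩
  rw [hmain n hn0, mA] at hn
  have hTn := zpow_mp h1 h2 h3 n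
  have hTi : Integrable (fun x => F ((T ^ n) x)) μ := hTn.integrable_comp_of_integrable hFi
  have hFF : Integrable (fun x => F x * F ((T ^ n) x)) μ := by
    refine Integrable.of_bound (hF.mul (hF.comp hTn.measurable)).aestronglyMeasurable (M * M)
      (Eventually.of_forall fun x => ?_)
    rw [Real.norm_eq_abs, abs_mul]
    exact mul_le_mul (hFM _) (hFM _) (abs_nonneg _) hM0
  set m : ℝ := ∫ x, F x ∂μ with hm
  have e2 : ∫ x, F ((T ^ n) x) ∂μ = m := by
    have e : MeasurableEmbedding (⇑(T ^ n)) := by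
      have hn' := zpow_mp h1 h2 h3 (-n)
      let e : X ≃ᵐ X := ⟨T ^ n, hTn.measurable, by
        have : (Equiv.symm (T ^ n)) = T ^ (-n) := by rw [zpow_neg]; rfl
        rw [this]; exact hn'.measurable⟩
      exact e.measurableEmbedding
    exact hTn.integral_comp e _
  have i1 : ∫ x, c x ∂μ = (1 + m / K) / 2 := by
    have : ∀ x, c x = 1 / 2 + (1 / (2 * K)) * F x := by
      intro x
      simp only [hc]
      field_simp
    simp only [this]
    rw [integral_add (integrable_const _) (hFi.const_mul _), integral_const_mul, ← hm]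
    simp
    field_simp
  have i2 : ∫ x, c x * c ((T ^ n) x) ∂μ = (1 + 2 * m / K + r n / K ^ 2) / 4 := by
    have : ∀ x, c x * c ((T ^ n) x) = 1 / 4 + (1 / (4 * K)) * F x + (1 / (4 * K)) * F ((T ^ n) x)
        + (1 / (4 * K ^ 2)) * (F x * F ((T ^ n) x)) := by
      intro x
      simp only [hc]
      field_simp
      ring
    simp only [this]
    have j1 : Integrable (fun x => 1 / 4 + (1 / (4 * K)) * F x) μ :=
      (integrable_const _).add (hFi.const_mul _)
    have j2 : Integrable (fun x => 1 / 4 + (1 / (4 * K)) * F x + (1 / (4 * K)) * F ((T ^ n) x)) μ :=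
      j1.add (hTi.const_mul _)
    rw [integral_add j2 (hFF.const_mul _), integral_add j1 (hTi.const_mul _),
      integral_add (integrable_const _) (hFi.const_mul _),
      integral_const_mul, integral_const_mul, integral_const_mul, e2, ← hm, ← hr n]
    simp
    field_simp
    ring
  rw [i1, i2] at hn
  have h4 : ((1 + m / K) / 2) ^ 2 - ε / (4 * K ^ 2) =
      (1 + 2 * m / K + (m ^ 2 - ε) / K ^ 2) / 4 := by
    field_simp
    ring
  rw [h4] at hn
  have h5 : (m ^ 2 - ε) / K ^ 2 ≤ r n / K ^ 2 := by linarith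
  have h6 : m ^ 2 - ε ≤ r n := by
    rwa [div_le_div_iff_of_pos_right (by positivity)] at h5
  nlinarith [sq_nonneg m]

end Pool.Agent.W743.NR
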