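import Pool.Agent.W743.NR.Corr

set_option autoImplicit false
open MeasureTheory Filter Set

namespace Pool.Agent.W743.NR

universe u

/-- uniform measure on the unit interval of the real line -/
noncomputable def lam : Measure ℝ := volume.restrict (Icc (0 : ℝ) 1)

instance : IsProbabilityMeasure lam := by
  constructor
  simp [lam]

theorem lam_Iio {c : ℝ} (h0 : 0 ≤ c) (h1 : c ≤ 1) : lam (Iio c) = ENNReal.ofReal c := by
  rw [lam, Measure.restrict_apply measurableSet_Iio]
  have : Iio c ∩ Icc (0 : ℝ) 1 = Ico 0 c := by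
    ext x
    simp only [mem_inter_iff, mem_Iio, mem_Icc, mem_Ico]
    constructor
    · rintro ⟨h, h2, h3⟩
      exact ⟨h2, h⟩
    · rintro ⟨h, h2⟩
      exact ⟨h2, h, by linarith⟩
  rw [this, Real.volume_Ico, sub_zero]

/-- iid uniform noise indexed by the integers -/
noncomputable def noise : Measure (ℤ → ℝ) := Measure.infinitePi (fun _ => lam)

instance : IsProbabilityMeasure noise := by unfold noise; infer_instance

/-- the shift of the noise -/
def sh : Equiv.Perm (ℤ → ℝ) where
  toFun w := fun k => w (k + 1)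
  invFun w := fun k => w (k - 1)
  left_inv w := by ext k; simp
  right_inv w := by ext k; simp

theorem sh_measurable : Measurable sh := by
  rw [measurable_pi_iff]
  intro k
  exact measurable_pi_apply (k + 1)

theorem sh_symm_measurable : Measurable sh.symm := by
  rw [measurable_pi_iff]
  intro k
  exact measurable_pi_apply (k - 1)

theorem sh_mp : MeasurePreserving sh noise noise := by
  refine ⟨sh_measurable, ?_⟩
  have h := Measure.infinitePi_map_piCongrLeft (fun _ : ℤ => lam) (Equiv.addRight (-1 : ℤ))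
  have e : (⇑(MeasurableEquiv.piCongrLeft (fun _ : ℤ => ℝ) (Equiv.addRight (-1 : ℤ)))) = ⇑sh := by
    funext w
    funext k
    have h1 := Equiv.piCongrLeft_apply_apply (fun _ : ℤ => ℝ) (Equiv.addRight (-1 : ℤ)) w (k + 1)
    have h2 : (Equiv.addRight (-1 : ℤ)) (k + 1) = k := by simp
    rw [h2] at h1
    exact h1
  rw [e] at h
  exact h

theorem sh_zpow (n : ℤ) (w : ℤ → ℝ) (k : ℤ) : (sh ^ n) w k = w (k + n) := by
  have hnat : ∀ (m : ℕ) (w : ℤ → ℝ) (k : ℤ), (sh ^ m) w k = w (k + m) := by
    intro m
    induction m with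
    | zero => intro w k; simp
    | succ m ih =>
      intro w k
      rw [pow_succ, Equiv.Perm.mul_apply, ih]
      change w (k + m + 1) = _
      congr 1
      push_cast
      ring
  obtain ⟨m, rfl | rfl⟩ := n.eq_nat_or_neg
  · simpa using hnat m w k
  · have h1 : (sh ^ m) ((sh ^ (-(m : ℤ))) w) = w := by
      rw [zpow_neg, zpow_natCast]
      simp
    have h2 := hnat m ((sh ^ (-(m : ℤ))) w) (k - m)
    rw [h1] at h2
    have h3 : k - (m : ℤ) + m = k := by ring
    rw [h3] at h2
    rw [← h2]
    congr 1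

theorem noise_two {n : ℤ} (hn : n ≠ 0) {c d : ℝ} (h0 : 0 ≤ c) (h1 : c ≤ 1) (h2 : 0 ≤ d)
    (h3 : d ≤ 1) : noise {w | w 0 < c ∧ w n < d} = ENNReal.ofReal (c * d) := by
  have h := Measure.infinitePi_pi (fun _ : ℤ => lam) (s := {0, n})
    (t := fun i => if i = 0 then Iio c else Iio d)
    (by intro i _; beta_reduce; split_ifs <;> exact measurableSet_Iio)
  rw [Finset.prod_pair hn.symm] at h
  simp only [if_true, if_neg hn, lam_Iio h0 h1, lam_Iio h2 h3] at h
  rw [ENNReal.ofReal_mul h0, ← h, noise]
  congr 1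
  ext w
  simp only [mem_setOf_eq, Finset.coe_insert, Finset.coe_singleton, Set.mem_pi,
    Set.mem_insert_iff, Set.mem_singleton_iff, forall_eq_or_imp, forall_eq, if_true, if_neg hn,
    mem_Iio]

theorem noise_one {c : ℝ} (h0 : 0 ≤ c) (h1 : c ≤ 1) : noise {w | w 0 < c} = ENNReal.ofReal c := by
  have h := noise_two (n := 1) one_ne_zero h0 h1 zero_le_one le_rfl
  rw [mul_one] at h
  refine le_antisymm ?_ ?_
  · have h2 := Measure.infinitePi_pi (fun _ : ℤ => lam) (s := {0})
      (t := fun _ => Iio c) (by intro i _; exact measurableSet_Iio)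
    rw [Finset.prod_singleton, lam_Iio h0 h1] at h2
    rw [← h2, noise]
    apply measure_mono
    intro w hw
    simpa using hw
  · rw [← h]
    apply measure_mono
    intro w hw
    exact hw.1

end Pool.Agent.W743.NR
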