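import Pool.Agent.W743.NR.Main

set_option autoImplicit false
open MeasureTheory Filter Set

namespace Pool.Agent.W743.NR

universe u

/-- even part of `(δ + s) ^ m` as a polynomial in `s` -/
noncomputable def Ev (δ : ℝ) (m : ℕ) (s : ℝ) : ℝ :=
  ∑ k ∈ (Finset.range (m + 1)).filter (fun k => Even k), (δ ^ (m - k) * (m.choose k : ℝ)) * s ^ k

/-- odd part of `(δ + s) ^ m` as a polynomial in `s` -/
noncomputable def Od (δ : ℝ) (m : ℕ) (s : ℝ) : ℝ :=
  ∑ k ∈ (Finset.range (m + 1)).filter (fun k => ¬ Even k), (δ ^ (m - k) * (m.choose k : ℝ)) * s ^ k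

theorem Ev_add_Od (δ : ℝ) (m : ℕ) (s : ℝ) : Ev δ m s + Od δ m s = (δ + s) ^ m := by
  rw [Ev, Od, Finset.sum_filter_add_sum_filter_not, add_comm δ s, add_pow]
  exact Finset.sum_congr rfl fun k _ => by ring

theorem Ev_sub_Od (δ : ℝ) (m : ℕ) (s : ℝ) : Ev δ m s - Od δ m s = (δ - s) ^ m := by
  have h : Ev δ m s - Od δ m s = Ev δ m (-s) + Od δ m (-s) := by
    have h1 : Ev δ m (-s) = Ev δ m s := by
      refine Finset.sum_congr rfl fun k hk => ?_
      rw [Even.neg_pow (Finset.mem_filter.1 hk).2]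
    have h2 : Od δ m (-s) = - Od δ m s := by
      rw [Od, Od, ← Finset.sum_neg_distrib]
      refine Finset.sum_congr rfl fun k hk => ?_
      rw [Odd.neg_pow (Nat.not_even_iff_odd.1 (Finset.mem_filter.1 hk).2)]
      ring
    rw [h1, h2]
    ring
  rw [h, Ev_add_Od, sub_eq_add_neg]

theorem corr_Ev {δ : ℝ} (hδ : 0 ≤ δ) (m : ℕ) {s : ℤ → ℝ} (hs : Corr.{u} s) :
    Corr.{u} (fun n => Ev δ m (s n)) :=
  Corr.sum _ (fun k n => (δ ^ (m - k) * (m.choose k : ℝ)) * s n ^ k) fun _ _ =>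
    (Corr.const (by positivity)).mul (hs.pow _)

theorem corr_Od {δ : ℝ} (hδ : 0 ≤ δ) (m : ℕ) {s : ℤ → ℝ} (hs : Corr.{u} s) :
    Corr.{u} (fun n => Od δ m (s n)) :=
  Corr.sum _ (fun k n => (δ ^ (m - k) * (m.choose k : ℝ)) * s n ^ k) fun _ _ =>
    (Corr.const (by positivity)).mul (hs.pow _)

/-- the polynomial with nonnegative coefficients and no constant term -/
noncomputable def phi (δ : ℝ) (m : ℕ) (s t : ℝ) : ℝ :=
  Ev δ m s * Od δ m t + Od δ m s * Ev δ m t + Od δ m s * Od δ m t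

theorem phi_comm (δ : ℝ) (m : ℕ) (s t : ℝ) : phi δ m s t = phi δ m t s := by
  unfold phi; ring

theorem corr_phi {δ : ℝ} (hδ : 0 ≤ δ) (m : ℕ) {s t : ℤ → ℝ} (hs : Corr.{u} s) (ht : Corr.{u} t) :
    Corr.{u} (fun n => phi δ m (s n) (t n)) :=
  (((corr_Ev hδ m hs).mul (corr_Od hδ m ht)).add ((corr_Od hδ m hs).mul (corr_Ev hδ m ht))).add
    ((corr_Od hδ m hs).mul (corr_Od hδ m ht))

theorem phi_neg {δ : ℝ} (h0 : 0 < δ) {m : ℕ} (hm : Even m)
    (hq : ((1 - δ) / (1 + δ)) ^ m ≤ 1 / 4) {s t : ℝ} (hs1 : -1 ≤ s) (hs : s ≤ -δ) :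
    phi δ m s t ≤ -((2 * δ) ^ m * δ ^ m / 16) := by
  set a := (δ + s) ^ m with ha
  set b := (δ - s) ^ m with hb
  set c := (δ + t) ^ m with hc
  set d := (δ - t) ^ m with hd
  have ha0 : 0 ≤ a := hm.pow_nonneg _
  have hc0 : 0 ≤ c := hm.pow_nonneg _
  have hd0 : 0 ≤ d := hm.pow_nonneg _
  have e1 := Ev_add_Od δ m s
  have e2 := Ev_sub_Od δ m s
  have e3 := Ev_add_Od δ m t
  have e4 := Ev_sub_Od δ m t
  rw [← ha] at e1; rw [← hb] at e2; rw [← hc] at e3; rw [← hd] at e4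
  have hphi : phi δ m s t = a * c - (a + b) * (c + d) / 4 := by
    have f1 : Ev δ m s = (a + b) / 2 := by linarith
    have f2 : Od δ m s = (a - b) / 2 := by linarith
    have f3 : Ev δ m t = (c + d) / 2 := by linarith
    have f4 : Od δ m t = (c - d) / 2 := by linarith
    rw [phi, f1, f2, f3, f4]
    ring
  have hab : a ≤ b / 4 := by
    have h1 : a = (-s - δ) ^ m := by
      rw [ha, ← hm.neg_pow]; congr 1; ring
    have h2 : (-s - δ) ≤ ((1 - δ) / (1 + δ)) * (δ - s) := by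
      rw [div_mul_eq_mul_div, le_div_iff₀ (by linarith)]
      nlinarith
    have h3 : a ≤ ((1 - δ) / (1 + δ)) ^ m * b := by
      rw [h1, hb, ← mul_pow]
      exact pow_le_pow_left₀ (by linarith) h2 m
    have hb0 : 0 ≤ b := hm.pow_nonneg _
    nlinarith
  have hb1 : (2 * δ) ^ m ≤ b := pow_le_pow_left₀ (by linarith) (by linarith) m
  have hcd : δ ^ m ≤ c + d := by
    rcases le_total 0 t with h | h
    · have : δ ^ m ≤ c := pow_le_pow_left₀ h0.le (by linarith) m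
      linarith
    · have : δ ^ m ≤ d := pow_le_pow_left₀ h0.le (by linarith) m
      linarith
  have hb0 : 0 ≤ (2 * δ) ^ m := by positivity
  have hd1 : 0 ≤ δ ^ m := by positivity
  have h5 : (2 * δ) ^ m * δ ^ m ≤ b * (c + d) := mul_le_mul hb1 hcd hd1 (hb0.trans hb1)
  have h6 : a * c ≤ b / 4 * c := mul_le_mul_of_nonneg_right hab hc0
  have hbc : 0 ≤ b * c := mul_nonneg (hb0.trans hb1) hc0
  have hbd : 0 ≤ b * d := mul_nonneg (hb0.trans hb1) hd0
  have hac : 0 ≤ a * c := mul_nonneg ha0 hc0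
  have had : 0 ≤ a * d := mul_nonneg ha0 hd0
  rw [hphi]
  nlinarith

theorem toReal_bounds {X : Type u} [MeasurableSpace X] (μ : Measure X) [IsProbabilityMeasure μ]
    (A B : Set X) : -1 ≤ (μ A).toReal - (μ B).toReal ^ 2 ∧ (μ A).toReal - (μ B).toReal ^ 2 ≤ 1 := by
  have h1 : (μ A).toReal ≤ 1 := ENNReal.toReal_le_of_le_ofReal zero_le_one (by simpa using prob_le_one)
  have h2 : (μ B).toReal ≤ 1 := ENNReal.toReal_le_of_le_ofReal zero_le_one (by simpa using prob_le_one)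
  have h3 : 0 ≤ (μ A).toReal := ENNReal.toReal_nonneg
  have h4 : 0 ≤ (μ B).toReal := ENNReal.toReal_nonneg
  constructor <;> nlinarith

theorem nice_union {l : Filter ℤ} (hl : ∀ᶠ n in l, n ≠ 0) {C D : Set ℤ}
    (h : Nice.{u} l (C ∪ D)) : Nice.{u} l C ∨ Nice.{u} l D := by
  by_contra hcon
  rw [not_or] at hcon
  obtain ⟨hC, hD⟩ := hcon
  unfold Nice at hC hD
  push Not at hC hD
  obtain ⟨X, _, μ, _, T, T1, T2, T3, A, hA, ε, hε, hCn⟩ := hC
  obtain ⟨Y, _, ν, _, S, S1, S2, S3, B, hB, ε', hε', hDn⟩ := hD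
  set s : ℤ → ℝ := fun n => (μ (A ∩ ⇑(T ^ n) '' A)).toReal - (μ A).toReal ^ 2 with hs
  set t : ℤ → ℝ := fun n => (ν (B ∩ ⇑(S ^ n) '' B)).toReal - (ν B).toReal ^ 2 with ht
  have hsC : Corr.{u} s := corr_of_set T1 T2 T3 hA
  have htC : Corr.{u} t := corr_of_set S1 S2 S3 hB
  set δ : ℝ := min (min ε ε') (1 / 2) with hδ
  have hδ0 : 0 < δ := lt_min (lt_min hε hε') (by norm_num)
  have hδ1 : δ ≤ 1 / 2 := min_le_right _ _
  have hδε : δ ≤ ε := (min_le_left _ _).trans (min_le_left _ _)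
  have hδε' : δ ≤ ε' := (min_le_left _ _).trans (min_le_right _ _)
  have hq0 : 0 ≤ (1 - δ) / (1 + δ) := div_nonneg (by linarith) (by linarith)
  have hq1 : (1 - δ) / (1 + δ) < 1 := (div_lt_one (by linarith)).2 (by linarith)
  obtain ⟨k, hk⟩ := exists_pow_lt_of_lt_one (show (0 : ℝ) < 1 / 4 by norm_num)
    (show ((1 - δ) / (1 + δ)) ^ 2 < 1 from pow_lt_one₀ hq0 hq1 two_ne_zero)
  rw [← pow_mul] at hk
  set m : ℕ := 2 * k with hm
  have hme : Even m := ⟨k, by omega⟩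
  set η : ℝ := (2 * δ) ^ m * δ ^ m / 16 with hη
  have hη0 : 0 < η := by positivity
  have key := nice_corr hl h (corr_phi hδ0.le m hsC htC) (half_pos hη0)
  obtain ⟨n, ⟨⟨hn, hn2⟩, hn3⟩, hn4⟩ := ((key.and_eventually hCn).and_eventually hDn).exists
  beta_reduce at hn2
  have hle : phi δ m (s n) (t n) ≤ -η := by
    rcases hn with hn | hn
    · have h1 := hn3 hn
      refine phi_neg hδ0 hme hk.le (toReal_bounds μ _ _).1 ?_
      simp only [hs]
      linarith
    · have h1 := hn4 hn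
      rw [phi_comm]
      refine phi_neg hδ0 hme hk.le (toReal_bounds ν _ _).1 ?_
      simp only [ht]
      linarith
  linarith

theorem not_nice_empty (l : Filter ℤ) : ¬ Nice.{u} l ∅ := by
  intro h
  have h1 := h PUnit (Measure.dirac PUnit.unit) 1 measurable_id measurable_id
    (MeasurePreserving.id _) univ MeasurableSet.univ 1 one_pos
  exact h1 (Eventually.of_forall fun n hn => hn.1)

theorem nice_iUnion {l : Filter ℤ} (hl : ∀ᶠ n in l, n ≠ 0) : ∀ (r : ℕ) (C : Fin r → Set ℤ),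
    Nice.{u} l (⋃ i, C i) → ∃ i, Nice.{u} l (C i) := by
  intro r
  induction r with
  | zero =>
    intro C h
    rw [iUnion_of_empty] at h
    exact absurd h (not_nice_empty l)
  | succ r ih =>
    intro C h
    have h1 : (⋃ i, C i) = C 0 ∪ ⋃ i : Fin r, C i.succ := by
      ext x
      simp only [mem_iUnion, mem_union, Fin.exists_fin_succ]
    rw [h1] at h
    rcases nice_union hl h with h2 | h2
    · exact ⟨0, h2⟩
    · obtain ⟨i, hi⟩ := ih _ h2
      exact ⟨i.succ, hi⟩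

end Pool.Agent.W743.NR
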